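import Mathlib

/-! Exponential polynomials as a monoid algebra, and the algebraic core of the argument. -/

namespace Pool.Agent.MP_620062_an.H46

open Polynomial Complex

/-- Formal exponential polynomials. -/
abbrev EP := AddMonoidAlgebra ℂ[X] ℂ

/-- Evaluation of a formal exponential polynomial. -/
noncomputable def ev (Φ : EP) (z : ℂ) : ℂ := Φ.coeff.sum fun a p => p.eval z * cexp (a * z)

@[simp] theorem ev_zero (z : ℂ) : ev 0 z = 0 := by simp [ev]

theorem ev_add (Φ Ψ : EP) (z : ℂ) : ev (Φ + Ψ) z = ev Φ z + ev Ψ z := by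
  unfold ev
  rw [AddMonoidAlgebra.coeff_add, Finsupp.sum_add_index']
  · simp
  · intro a p q; rw [eval_add, add_mul]

@[simp] theorem ev_single (a : ℂ) (p : ℂ[X]) (z : ℂ) :
    ev (AddMonoidAlgebra.single a p) z = p.eval z * cexp (a * z) := by
  unfold ev
  rw [AddMonoidAlgebra.coeff_single, Finsupp.sum_single_index]
  simp

theorem ev_neg (Φ : EP) (z : ℂ) : ev (-Φ) z = -ev Φ z := by
  have := ev_add Φ (-Φ) z
  rw [add_neg_cancel, ev_zero] at this
  linear_combination -this

theorem ev_sub (Φ Ψ : EP) (z : ℂ) : ev (Φ - Ψ) z = ev Φ z - ev Ψ z := by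
  rw [sub_eq_add_neg, ev_add, ev_neg, sub_eq_add_neg]

theorem ev_mul (Φ Ψ : EP) (z : ℂ) : ev (Φ * Ψ) z = ev Φ z * ev Ψ z := by
  induction Φ using AddMonoidAlgebra.induction_linear with
  | zero => simp
  | add Φ1 Φ2 h1 h2 => rw [add_mul, ev_add, ev_add, h1, h2, add_mul]
  | single a p =>
    induction Ψ using AddMonoidAlgebra.induction_linear with
    | zero => simp
    | add Ψ1 Ψ2 h1 h2 => rw [mul_add, ev_add, ev_add, h1, h2, mul_add]
    | single b q =>
      rw [AddMonoidAlgebra.single_mul_single, ev_single, ev_single, ev_single, eval_mul, add_mul,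
        Complex.exp_add]
      ring

/-- Frequency-wise application of a family of linear maps. -/
noncomputable def fw (L : ℂ → ℂ[X] →ₗ[ℂ] ℂ[X]) (Φ : EP) : EP :=
  AddMonoidAlgebra.ofCoeff (Finsupp.onFinset Φ.coeff.support (fun a => L a (Φ.coeff a)) (by
    intro a ha
    rw [Finsupp.mem_support_iff]
    intro h
    exact ha (by simp [h])))

theorem fw_coeff (L : ℂ → ℂ[X] →ₗ[ℂ] ℂ[X]) (Φ : EP) (a : ℂ) :
    (fw L Φ).coeff a = L a (Φ.coeff a) := rfl

theorem fw_add (L : ℂ → ℂ[X] →ₗ[ℂ] ℂ[X]) (Φ Ψ : EP) : fw L (Φ + Ψ) = fw L Φ + fw L Ψ := by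
  ext a : 2
  simp [fw_coeff]

theorem fw_sub (L : ℂ → ℂ[X] →ₗ[ℂ] ℂ[X]) (Φ Ψ : EP) : fw L (Φ - Ψ) = fw L Φ - fw L Ψ := by
  ext a : 2
  simp [fw_coeff]

theorem fw_zero (L : ℂ → ℂ[X] →ₗ[ℂ] ℂ[X]) : fw L 0 = 0 := by
  ext a : 2
  simp [fw_coeff]

theorem fw_single (L : ℂ → ℂ[X] →ₗ[ℂ] ℂ[X]) (a : ℂ) (p : ℂ[X]) :
    fw L (AddMonoidAlgebra.single a p) = AddMonoidAlgebra.single a (L a p) := by
  ext b : 2
  classical
  simp only [fw_coeff, AddMonoidAlgebra.coeff_single, Finsupp.single_apply]
  split_ifs with h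
  · rw [h]
  · simp

/-- The derivative acting on the polynomial factor of `p(z) exp(a z)`. -/
noncomputable def Dp (a : ℂ) : Module.End ℂ ℂ[X] := derivative + a • LinearMap.id

theorem Dp_apply (a : ℂ) (p : ℂ[X]) : Dp a p = derivative p + a • p := rfl

theorem hasDerivAt_single (a : ℂ) (p : ℂ[X]) (z : ℂ) :
    HasDerivAt (fun z => p.eval z * cexp (a * z)) ((Dp a p).eval z * cexp (a * z)) z := by
  have h1 := p.hasDerivAt z
  have h2 : HasDerivAt (fun z => cexp (a * z)) (cexp (a * z) * a) z := by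
    simpa using ((hasDerivAt_id z).const_mul a).cexp
  refine (h1.fun_mul h2).congr_deriv ?_
  simp [Dp_apply]
  ring

theorem hasDerivAt_ev (c : ℂ) (Φ : EP) (z : ℂ) :
    HasDerivAt (ev Φ) (ev (fw (fun b => Dp (b - c)) Φ) z + c * ev Φ z) z := by
  induction Φ using AddMonoidAlgebra.induction_linear with
  | zero =>
    have : ev 0 = fun _ => 0 := funext ev_zero
    rw [fw_zero, this]
    simpa using hasDerivAt_const z (0 : ℂ)
  | add Φ1 Φ2 h1 h2 =>
    have : ev (Φ1 + Φ2) = fun z => ev Φ1 z + ev Φ2 z := funext (ev_add _ _)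
    rw [fw_add, ev_add, ev_add, this]
    refine (h1.fun_add h2).congr_deriv ?_
    ring
  | single a p =>
    have : ev (AddMonoidAlgebra.single a p) = fun z => p.eval z * cexp (a * z) :=
      funext (ev_single _ _)
    rw [fw_single, ev_single, ev_single, this]
    convert hasDerivAt_single a p z using 1
    simp [Dp_apply]
    ring

theorem differentiable_ev (Φ : EP) : Differentiable ℂ (ev Φ) :=
  fun z => (hasDerivAt_ev 0 Φ z).differentiableAt

/-- Degree-triangular maps with a prescribed diagonal constant. -/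
def Tri (T : ℂ[X] →ₗ[ℂ] ℂ[X]) (c : ℂ) : Prop :=
  ∀ (n : ℕ) (p : ℂ[X]), p.natDegree ≤ n → (T p).natDegree ≤ n ∧ (T p).coeff n = c * p.coeff n

theorem Tri.add {T T' : ℂ[X] →ₗ[ℂ] ℂ[X]} {c c' : ℂ} (h : Tri T c) (h' : Tri T' c') :
    Tri (T + T') (c + c') := by
  intro n p hp
  refine ⟨natDegree_add_le_of_degree_le (h n p hp).1 (h' n p hp).1, ?_⟩
  rw [LinearMap.add_apply, coeff_add, (h n p hp).2, (h' n p hp).2, add_mul]

theorem Tri.smul {T : ℂ[X] →ₗ[ℂ] ℂ[X]} {c : ℂ} (h : Tri T c) (d : ℂ) : Tri (d • T) (d * c) := by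
  intro n p hp
  refine ⟨(natDegree_smul_le _ _).trans (h n p hp).1, ?_⟩
  rw [LinearMap.smul_apply, coeff_smul, (h n p hp).2, smul_eq_mul, mul_assoc]

theorem Tri.comp {T T' : ℂ[X] →ₗ[ℂ] ℂ[X]} {c c' : ℂ} (h : Tri T c) (h' : Tri T' c') :
    Tri (T ∘ₗ T') (c * c') := by
  intro n p hp
  refine ⟨(h n _ (h' n p hp).1).1, ?_⟩
  rw [LinearMap.comp_apply, (h n _ (h' n p hp).1).2, (h' n p hp).2, mul_assoc]

theorem tri_zero : Tri 0 0 := fun n p _ => by simp

theorem tri_id : Tri LinearMap.id 1 := fun n p hp => by simpa using hp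

theorem tri_Dp (a : ℂ) : Tri (Dp a) a := by
  intro n p hp
  refine ⟨natDegree_add_le_of_degree_le ((natDegree_derivative_le p).trans (by omega))
    ((natDegree_smul_le _ _).trans hp), ?_⟩
  rw [Dp_apply, coeff_add, coeff_derivative, coeff_eq_zero_of_natDegree_lt (by omega)]
  simp

theorem tri_pow (a : ℂ) (j : ℕ) : Tri (Dp a ^ j) (a ^ j) := by
  induction j with
  | zero => simpa [Module.End.one_eq_id] using tri_id
  | succ j ih => rw [pow_succ, pow_succ]; exact ih.comp (tri_Dp a)

theorem tri_aeval (a : ℂ) (q : ℂ[X]) : Tri (aeval (Dp a) q) (q.eval a) := by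
  induction q using Polynomial.induction_on' with
  | add p q hp hq => rw [map_add, eval_add]; exact hp.add hq
  | monomial j c =>
    rw [aeval_monomial, eval_monomial, ← Algebra.smul_def]
    exact (tri_pow a j).smul c

theorem tri_taylor (b : ℂ) : Tri (taylor b) 1 := by
  intro n p hp
  refine ⟨by rw [natDegree_taylor]; exact hp, ?_⟩
  rcases hp.eq_or_lt with rfl | hlt
  · rw [coeff_taylor_natDegree, one_mul]; rfl
  · rw [coeff_eq_zero_of_natDegree_lt (by rw [natDegree_taylor]; exact hlt),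
      coeff_eq_zero_of_natDegree_lt hlt, mul_zero]

theorem Tri.eq_zero {T : ℂ[X] →ₗ[ℂ] ℂ[X]} {c : ℂ} (h : Tri T c) (hc : c ≠ 0) {p : ℂ[X]}
    (hp : T p = 0) : p = 0 := by
  have := (h _ p le_rfl).2
  rw [hp, coeff_zero, eq_comm, mul_eq_zero] at this
  exact leadingCoeff_eq_zero.mp (this.resolve_left hc)

theorem ev_injective_aux (s : Finset ℂ) :
    ∀ Φ : EP, Φ.coeff.support ⊆ s → (∀ z, ev Φ z = 0) → Φ = 0 := by
  classical
  induction s using Finset.induction_on with
  | empty =>
    intro Φ h _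
    rw [← AddMonoidAlgebra.coeff_eq_zero, ← Finsupp.support_eq_empty]
    exact Finset.subset_empty.mp h
  | insert a s ha ih =>
    intro Φ hs h0
    have key : ∀ N : ℕ, ∀ z, ev (fw (fun b => Dp (b - a) ^ N) Φ) z = 0 := by
      intro N
      induction N with
      | zero =>
        have : fw (fun b => Dp (b - a) ^ 0) Φ = Φ := by ext b : 2; simp [fw_coeff]
        rwa [this]
      | succ N ihN =>
        intro z
        have h1 := hasDerivAt_ev a (fw (fun b => Dp (b - a) ^ N) Φ) z
        have h2 : ev (fw (fun b => Dp (b - a) ^ N) Φ) = fun _ => 0 := funext ihN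
        rw [h2] at h1
        have h3 := h1.unique (hasDerivAt_const z (0 : ℂ))
        have : fw (fun b => Dp (b - a) ^ (N + 1)) Φ
            = fw (fun b => Dp (b - a)) (fw (fun b => Dp (b - a) ^ N) Φ) := by
          ext b : 2
          simp only [fw_coeff, pow_succ', Module.End.mul_apply]
        rw [this]
        simpa using h3
    have hz := ih (fw (fun b => Dp (b - a) ^ ((Φ.coeff a).natDegree + 1)) Φ) (by
      intro b hb
      rw [Finsupp.mem_support_iff, fw_coeff] at hb
      have hb' : b ∈ Φ.coeff.support := by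
        rw [Finsupp.mem_support_iff]
        intro h; exact hb (by simp [h])
      rcases Finset.mem_insert.mp (hs hb') with rfl | h
      · exfalso
        apply hb
        have : Dp (b - b) = derivative := by simp [Dp]
        rw [this, Module.End.pow_apply]
        exact iterate_derivative_eq_zero (by omega)
      · exact h) (key _)
    have hb : ∀ b, b ≠ a → Φ.coeff b = 0 := by
      intro b hba
      have := congrArg (fun Ψ : EP => Ψ.coeff b) hz
      simp only [fw_coeff, AddMonoidAlgebra.coeff_zero, Finsupp.coe_zero, Pi.zero_apply] at this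
      exact (tri_pow (b - a) _).eq_zero (pow_ne_zero _ (sub_ne_zero.mpr hba)) this
    have hΦ : Φ = AddMonoidAlgebra.single a (Φ.coeff a) := by
      ext b : 2
      simp only [AddMonoidAlgebra.coeff_single, Finsupp.single_apply]
      split_ifs with h
      · rw [h]
      · exact hb b (Ne.symm h)
    have : Φ.coeff a = 0 := by
      apply Polynomial.funext
      intro z
      have := h0 z
      rw [hΦ, ev_single, mul_eq_zero] at this
      simpa using this.resolve_right (Complex.exp_ne_zero _)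
    rw [hΦ, this, AddMonoidAlgebra.single_zero]

theorem ev_injective {Φ : EP} (h : ∀ z, ev Φ z = 0) : Φ = 0 :=
  ev_injective_aux _ Φ subset_rfl h

/-- The action of a conjugate-holomorphic symbol on the polynomial factor of `p(z) exp(a z)`. -/
noncomputable def LL (k : EP) (a : ℂ) : ℂ[X] →ₗ[ℂ] ℂ[X] :=
  k.coeff.sum fun b q => cexp (b * a) • (taylor b ∘ₗ aeval (Dp a) q)

theorem LL_zero (a : ℂ) : LL 0 a = 0 := by simp [LL]

theorem LL_add (k k' : EP) (a : ℂ) : LL (k + k') a = LL k a + LL k' a := by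
  unfold LL
  rw [AddMonoidAlgebra.coeff_add, Finsupp.sum_add_index']
  · simp
  · intro b p q; rw [map_add, LinearMap.comp_add, smul_add]

theorem LL_single (b : ℂ) (q : ℂ[X]) (a : ℂ) :
    LL (AddMonoidAlgebra.single b q) a = cexp (b * a) • (taylor b ∘ₗ aeval (Dp a) q) := by
  unfold LL
  rw [AddMonoidAlgebra.coeff_single, Finsupp.sum_single_index]
  simp

theorem tri_LL (k : EP) (a : ℂ) : Tri (LL k a) (ev k a) := by
  induction k using AddMonoidAlgebra.induction_linear with
  | zero => rw [LL_zero, ev_zero]; exact tri_zero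
  | add k1 k2 h1 h2 => rw [LL_add, ev_add]; exact h1.add h2
  | single b q =>
    rw [LL_single, ev_single]
    have := ((tri_taylor b).comp (tri_aeval a q)).smul (cexp (b * a))
    convert this using 1
    ring

theorem LL_one (k : EP) (a : ℂ) : LL k a 1 = C (ev k a) := by
  have := tri_LL k a 0 1 (by simp)
  rw [eq_C_of_natDegree_le_zero this.1, this.2]
  simp

theorem top_frequency (D : ℂ →+ ℝ ×ₗ ℝ) (hD : Function.Injective D) (f k X : EP) (hX : X ≠ 0)
    (h : f * X + fw (LL k) X = 0) {a : ℂ} (ha : f.coeff a ≠ 0) : ¬ 0 < D a := by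
  intro hpos
  obtain ⟨af, haf, hmaxf⟩ := Finset.exists_max_image f.coeff.support D
    ⟨a, Finsupp.mem_support_iff.mpr ha⟩
  obtain ⟨aX, haX, hmaxX⟩ := Finset.exists_max_image X.coeff.support D
    (Finsupp.support_nonempty_iff.mpr (by simpa using hX))
  have hU : UniqueAdd f.coeff.support X.coeff.support af aX := by
    intro b c hb hc hbc
    have e : D b + D c = D af + D aX := by rw [← map_add, ← map_add, hbc]
    have h1 := hmaxf b hb
    have h2 := hmaxX c hc
    have h3 : D b = D af := by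
      by_contra hne
      exact absurd e (ne_of_lt (add_lt_add_of_lt_of_le (lt_of_le_of_ne h1 hne) h2))
    rw [h3, add_right_inj] at e
    exact ⟨hD h3, hD e⟩
  have hc := AddMonoidAlgebra.coeff_mul_add_of_uniqueAdd hU
  have h0 : X.coeff (af + aX) = 0 := by
    by_contra hne
    have := hmaxX _ (Finsupp.mem_support_iff.mpr hne)
    rw [map_add] at this
    have h4 : 0 < D af := lt_of_lt_of_le hpos (hmaxf a (Finsupp.mem_support_iff.mpr ha))
    exact absurd this (not_le.mpr (lt_add_of_pos_left _ h4))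
  have := congrArg (fun Ψ : EP => Ψ.coeff (af + aX)) h
  simp only [AddMonoidAlgebra.coeff_add, Finsupp.add_apply, fw_coeff, h0, map_zero, add_zero,
    hc, AddMonoidAlgebra.coeff_zero, Finsupp.coe_zero, Pi.zero_apply, mul_eq_zero] at this
  rcases this with h' | h'
  · exact Finsupp.mem_support_iff.mp haf h'
  · exact Finsupp.mem_support_iff.mp haX h'

/-- The lexicographic order on complex numbers. -/
def lexD : ℂ →+ ℝ ×ₗ ℝ where
  toFun := fun z => toLex (z.re, z.im)
  map_zero' := rfl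
  map_add' := fun _ _ => rfl

theorem lexD_inj : Function.Injective lexD := by
  intro z w h
  have := toLex.injective h
  exact Complex.ext (congrArg Prod.fst this) (congrArg Prod.snd this)

theorem kernel_core (f k X : EP) (hX : X ≠ 0) (h : f * X + fw (LL k) X = 0) :
    ∃ c : ℂ, f = AddMonoidAlgebra.single 0 (C c) ∧
      ∃ a, X.coeff a ≠ 0 ∧ c + ev k a = 0 := by
  classical
  have hf : ∀ a, a ≠ 0 → f.coeff a = 0 := by
    intro a ha
    by_contra hne
    have h1 := top_frequency lexD lexD_inj f k X hX h hne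
    have h2 := top_frequency (-lexD) (fun z w e => lexD_inj (neg_injective e)) f k X hX h hne
    simp only [AddMonoidHom.neg_apply, neg_pos] at h2
    have h3 : lexD a = 0 := le_antisymm (not_lt.mp h1) (not_lt.mp h2)
    exact ha (lexD_inj (by rw [h3, map_zero]))
  have hf' : f = AddMonoidAlgebra.single 0 (f.coeff 0) := by
    ext b : 2
    simp only [AddMonoidAlgebra.coeff_single, Finsupp.single_apply]
    split_ifs with hb
    · rw [hb]
    · exact hf b (Ne.symm hb)
  obtain ⟨a, ha⟩ := Finsupp.support_nonempty_iff.mpr (show X.coeff ≠ 0 by simpa using hX)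
  rw [Finsupp.mem_support_iff] at ha
  have e := congrArg (fun Ψ : EP => Ψ.coeff a) h
  rw [hf'] at e
  simp only [AddMonoidAlgebra.coeff_add, Finsupp.add_apply, fw_coeff,
    AddMonoidAlgebra.coeff_single_zero_mul, AddMonoidAlgebra.coeff_zero, Finsupp.coe_zero,
    Pi.zero_apply] at e
  have ht := tri_LL k a _ (X.coeff a) le_rfl
  have hdeg : (f.coeff 0).natDegree ≤ 0 := by
    by_contra hcon
    have hf0 : f.coeff 0 ≠ 0 := by intro h0; rw [h0] at hcon; simp at hcon
    have e' : f.coeff 0 * X.coeff a = -LL k a (X.coeff a) := eq_neg_of_add_eq_zero_left e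
    have := congrArg natDegree e'
    rw [natDegree_mul hf0 ha, natDegree_neg] at this
    omega
  refine ⟨(f.coeff 0).coeff 0, ?_, a, ha, ?_⟩
  · rw [← eq_C_of_natDegree_le_zero hdeg]; exact hf'
  · rw [eq_C_of_natDegree_le_zero hdeg] at e
    have := congrArg (fun p : ℂ[X] => p.coeff (X.coeff a).natDegree) e
    simp only [coeff_add, coeff_C_mul, ht.2, coeff_zero, ← add_mul, mul_eq_zero] at this
    exact this.resolve_right (leadingCoeff_ne_zero.mpr ha)

theorem coeff_mul_eq_zero {A B : Set ℂ} {Φ Ψ : EP} (hΦ : ∀ a, Φ.coeff a ≠ 0 → a ∈ A)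
    (hΨ : ∀ b, Ψ.coeff b ≠ 0 → b ∈ B) {c : ℂ} (hc : (Φ * Ψ).coeff c ≠ 0) :
    ∃ a ∈ A, ∃ b ∈ B, c = a + b := by
  classical
  have := AddMonoidAlgebra.support_coeff_mul_subset Φ Ψ (Finsupp.mem_support_iff.mpr hc)
  obtain ⟨a, ha, b, hb, rfl⟩ := Finset.mem_add.mp this
  exact ⟨a, hΦ a (Finsupp.mem_support_iff.mp ha), b, hΨ b (Finsupp.mem_support_iff.mp hb), rfl⟩

theorem separate (f h k g : EP) (lam : ℂ) (π0 π1 π2 : ℂ[X])
    (hlam : ∀ a ∈ insert (0 : ℂ) f.coeff.support, ∀ b ∈ insert (0 : ℂ) h.coeff.support,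
      ∀ a' ∈ insert (0 : ℂ) f.coeff.support, ∀ b' ∈ insert (0 : ℂ) h.coeff.support,
        a + (b + lam) ≠ a' + b')
    (Φ0 Φ1 : EP) (h0 : Φ0 = AddMonoidAlgebra.single lam 1 - AddMonoidAlgebra.single 0 π0)
    (h1 : Φ1 = h * Φ0 + fw (LL g) Φ0 - AddMonoidAlgebra.single 0 π1)
    (h2 : f * Φ1 + fw (LL k) Φ1 - AddMonoidAlgebra.single 0 π2 = 0) :
    h + AddMonoidAlgebra.single 0 (C (ev g lam)) = 0 ∨
      ∃ c : ℂ, f = AddMonoidAlgebra.single 0 (C c) ∧
        ∃ b ∈ insert (0 : ℂ) h.coeff.support, c + ev k (b + lam) = 0 := by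
  classical
  by_cases hh : h + AddMonoidAlgebra.single 0 (C (ev g lam)) = 0
  · exact Or.inl hh
  right
  set X : EP := (h + AddMonoidAlgebra.single 0 (C (ev g lam))) * AddMonoidAlgebra.single lam 1
    with hX
  set Y : EP := h * AddMonoidAlgebra.single 0 π0 + AddMonoidAlgebra.single 0 (LL g 0 π0)
    + AddMonoidAlgebra.single 0 π1 with hY
  have hΦ1 : Φ1 = X - Y := by
    rw [h1, h0, fw_sub, fw_single, fw_single, LL_one, hX, hY, add_mul,
      AddMonoidAlgebra.single_mul_single, zero_add, mul_one]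
    ring
  have hsing : ∀ (c : ℂ) (p : ℂ[X]) (a : ℂ),
      (AddMonoidAlgebra.single c p : EP).coeff a ≠ 0 → a = c := by
    intro c p a ha
    by_contra hne
    apply ha
    simp [AddMonoidAlgebra.coeff_single, Ne.symm hne]
  have hmem : ∀ (Φ : EP) a, Φ.coeff a ≠ 0 → a ∈ (insert (0 : ℂ) Φ.coeff.support : Finset ℂ) :=
    fun Φ a ha => Finset.mem_insert_of_mem (Finsupp.mem_support_iff.mpr ha)
  have hXs : ∀ c, X.coeff c ≠ 0 → ∃ b ∈ insert (0 : ℂ) h.coeff.support, c = b + lam := by
    intro c hc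
    obtain ⟨b, hb, l, hl, rfl⟩ := coeff_mul_eq_zero (A := ↑(insert (0 : ℂ) h.coeff.support))
      (B := {lam}) (fun a ha => by
        by_cases h' : h.coeff a = 0
        · have : (AddMonoidAlgebra.single 0 (C (ev g lam)) : EP).coeff a ≠ 0 := by
            intro h''
            apply ha
            rw [AddMonoidAlgebra.coeff_add, Finsupp.add_apply, h', h'', add_zero]
          rw [hsing _ _ _ this]; simp
        · exact hmem h a h') (fun b hb => hsing _ _ _ hb) hc
    exact ⟨b, hb, by rw [hl]⟩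
  have hYs : ∀ c, Y.coeff c ≠ 0 → c ∈ insert (0 : ℂ) h.coeff.support := by
    intro c hc
    by_contra hcon
    apply hc
    have c0 : c ≠ 0 := fun h' => hcon (by rw [h']; simp)
    have e1 : (h * AddMonoidAlgebra.single 0 π0 : EP).coeff c = 0 := by
      rw [AddMonoidAlgebra.coeff_mul_single_zero]
      have : h.coeff c = 0 := by
        by_contra h'
        exact hcon (hmem h c h')
      rw [this, zero_mul]
    have e2 : ∀ p : ℂ[X], (AddMonoidAlgebra.single 0 p : EP).coeff c = 0 := by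
      intro p
      by_contra h'
      exact c0 (hsing _ _ _ h')
    simp only [hY, AddMonoidAlgebra.coeff_add, Finsupp.add_apply, e1, e2, add_zero]
  have hXne : X ≠ 0 := mul_ne_zero hh (by simp)
  have heq : f * X + fw (LL k) X = f * Y + fw (LL k) Y + AddMonoidAlgebra.single 0 π2 := by
    rw [hΦ1, fw_sub] at h2
    linear_combination h2
  have hzero : f * X + fw (LL k) X = 0 := by
    ext c : 2
    by_contra hc
    have hc1 : (f * X + fw (LL k) X).coeff c ≠ 0 := hc
    have hc2 := hc1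
    rw [heq] at hc2
    have r1 : ∃ a ∈ insert (0 : ℂ) f.coeff.support, ∃ b ∈ insert (0 : ℂ) h.coeff.support,
        c = a + (b + lam) := by
      by_cases e : (f * X).coeff c = 0
      · have : X.coeff c ≠ 0 := by
          intro h'
          apply hc1
          rw [AddMonoidAlgebra.coeff_add, Finsupp.add_apply, e, fw_coeff, h', map_zero, add_zero]
        obtain ⟨b, hb, rfl⟩ := hXs c this
        exact ⟨0, by simp, b, hb, by rw [zero_add]⟩
      · obtain ⟨a, ha, x, hx, rfl⟩ := coeff_mul_eq_zero (A := {a | f.coeff a ≠ 0})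
          (B := {x | X.coeff x ≠ 0}) (fun _ h => h) (fun _ h => h) e
        obtain ⟨b, hb, rfl⟩ := hXs x hx
        exact ⟨a, hmem f a ha, b, hb, rfl⟩
    have r2 : ∃ a ∈ insert (0 : ℂ) f.coeff.support, ∃ b ∈ insert (0 : ℂ) h.coeff.support,
        c = a + b := by
      by_cases e : (f * Y).coeff c = 0
      · by_cases e' : Y.coeff c = 0
        · have : (AddMonoidAlgebra.single 0 π2 : EP).coeff c ≠ 0 := by
            intro h'
            apply hc2
            simp only [AddMonoidAlgebra.coeff_add, Finsupp.add_apply, e, fw_coeff, e', map_zero,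
              h', add_zero]
          exact ⟨0, by simp, 0, by simp, by rw [hsing _ _ _ this, add_zero]⟩
        · exact ⟨0, by simp, c, hYs c e', by rw [zero_add]⟩
      · obtain ⟨a, ha, x, hx, rfl⟩ := coeff_mul_eq_zero (A := {a | f.coeff a ≠ 0})
          (B := {x | Y.coeff x ≠ 0}) (fun _ h => h) (fun _ h => h) e
        exact ⟨a, hmem f a ha, x, hYs x hx, rfl⟩
    obtain ⟨a, ha, b, hb, e1⟩ := r1
    obtain ⟨a', ha', b', hb', e2⟩ := r2
    exact hlam a ha b hb a' ha' b' hb' (e1.symm.trans e2)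
  obtain ⟨c, hc, a, ha, hca⟩ := kernel_core f k X hXne hzero
  obtain ⟨b, hb, rfl⟩ := hXs a ha
  exact ⟨c, hc, b, hb, hca⟩

theorem eventually_ne {φ : ℂ → ℂ} (hφ : Differentiable ℂ φ) (h : ∃ z, φ z ≠ 0) :
    ∀ᶠ z in Filter.codiscreteWithin (Set.univ : Set ℂ), φ z ≠ 0 := by
  have := (hφ.differentiableOn.analyticOnNhd isOpen_univ).eqOn_zero_or_eventually_ne_zero_of_preconnected
    isPreconnected_univ
  refine this.resolve_left ?_
  intro h0
  obtain ⟨z, hz⟩ := h
  exact hz (h0 (Set.mem_univ z))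

theorem not_discreteTopology_of_perfect (X : Type*) [TopologicalSpace X] [Zero X]
    [(nhdsWithin (0 : X) {0}ᶜ).NeBot] : ¬ DiscreteTopology X := by
  intro h
  have h1 : (nhdsWithin (0 : X) {0}ᶜ) = ⊥ := discreteTopology_iff_nhds_ne.mp h 0
  exact (inferInstance : (nhdsWithin (0 : X) {0}ᶜ).NeBot).ne h1

theorem final_alg (f h k g : EP)
    (H : ∀ lam : ℂ, lam ≠ 0 → ∃ (π0 π1 π2 : ℂ[X]) (Φ0 Φ1 : EP),
      Φ0 = AddMonoidAlgebra.single lam 1 - AddMonoidAlgebra.single 0 π0 ∧
      Φ1 = h * Φ0 + fw (LL g) Φ0 - AddMonoidAlgebra.single 0 π1 ∧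
      f * Φ1 + fw (LL k) Φ1 - AddMonoidAlgebra.single 0 π2 = 0) :
    (∀ z w, ev f z + ev k w = 0) ∨ (∀ z w, ev h z + ev g w = 0) := by
  classical
  by_contra hcon
  rw [not_or] at hcon
  obtain ⟨hu, hv⟩ := hcon
  set l := Filter.codiscreteWithin (Set.univ : Set ℂ) with hl
  have e0 : ∀ c : ℂ, ∀ᶠ lam in l, lam ≠ c := by
    intro c
    have := eventually_ne (φ := fun z => z - c) (by fun_prop) ⟨c + 1, by simp⟩
    exact this.mono fun z hz => sub_ne_zero.mp hz
  have e1 : ∀ᶠ lam in l, ∀ a ∈ insert (0 : ℂ) f.coeff.support,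
      ∀ b ∈ insert (0 : ℂ) h.coeff.support,
      ∀ a' ∈ insert (0 : ℂ) f.coeff.support, ∀ b' ∈ insert (0 : ℂ) h.coeff.support,
        a + (b + lam) ≠ a' + b' := by
    simp only [Filter.eventually_all_finset]
    intro a _ b _ a' _ b' _
    refine (e0 (a' + b' - a - b)).mono fun z hz e => hz ?_
    linear_combination e
  have e2 : ∀ᶠ lam in l, h + AddMonoidAlgebra.single 0 (C (ev g lam)) ≠ 0 := by
    by_cases hex : ∃ w, ev h 0 + ev g w ≠ 0
    · refine (eventually_ne (φ := fun w => ev h 0 + ev g w)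
        ((differentiable_ev g).const_add _) hex).mono fun w hw e => hw ?_
      have := congrArg (fun Φ => ev Φ 0) e
      simpa [ev_add] using this
    · push Not at hex
      refine Filter.Eventually.of_forall fun lam e => hv fun z w => ?_
      have := congrArg (fun Φ => ev Φ z) e
      simp only [ev_add, ev_single, eval_C, zero_mul, Complex.exp_zero, mul_one, ev_zero] at this
      linear_combination this + hex w - hex lam
  have e3 : ∀ᶠ lam in l, ∀ b ∈ insert (0 : ℂ) h.coeff.support,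
      ∀ c : ℂ, f = AddMonoidAlgebra.single 0 (C c) → c + ev k (b + lam) ≠ 0 := by
    rw [Filter.eventually_all_finset]
    intro b _
    by_cases hex : ∃ w, ev f 0 + ev k (b + w) ≠ 0
    · refine (eventually_ne (φ := fun w => ev f 0 + ev k (b + w))
        (((differentiable_ev k).comp (by fun_prop)).const_add _) hex).mono fun w hw c hc => ?_
      rw [hc] at hw
      simpa using hw
    · push Not at hex
      refine Filter.Eventually.of_forall fun lam c hc _ => hu fun z w => ?_
      have := hex (w - b)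
      rw [hc] at this ⊢
      simpa using this
  have hne : l.NeBot := by
    rw [hl, Filter.neBot_iff, Ne, codiscreteWithin_eq_bot_iff, isDiscrete_univ_iff]
    intro hd
    exact not_discreteTopology_of_perfect ℂ hd
  obtain ⟨lam, h0, h1, h2, h3⟩ := ((e0 0).and (e1.and (e2.and e3))).exists
  obtain ⟨π0, π1, π2, Φ0, Φ1, a0, a1, a2⟩ := H lam h0
  rcases separate f h k g lam π0 π1 π2 h1 Φ0 Φ1 a0 a1 a2 with h' | ⟨c, hc, b, hb, hcb⟩
  · exact h2 h'
  · exact h3 b hb c hc hcb

end Pool.Agent.MP_620062_an.H46
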