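import Mathlib

/-! Definitions: Fock-Sobolev space, its kernel, Toeplitz operators, the symbol class. -/

namespace Pool.Agent.MP_620062_an.H46

open MeasureTheory
open scoped ComplexConjugate

/-- The measure `|z|^(2m) exp(-|z|^2) dA(z) / (π m!)` on the plane. -/
noncomputable def mu (m : ℕ) : Measure ℂ :=
  volume.withDensity fun z : ℂ =>
    ENNReal.ofReal (‖z‖ ^ (2 * m) * Real.exp (-‖z‖ ^ 2) / (Real.pi * (m.factorial : ℝ)))

/-- The reproducing kernel of the Fock-Sobolev space. -/
noncomputable def kern (m : ℕ) (z w : ℂ) : ℂ :=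
  ∑' k : ℕ, ((m.factorial : ℂ) / ((k + m).factorial : ℂ)) * (z * conj w) ^ k

/-- Membership in the Fock-Sobolev space: entire and square integrable. -/
def InF (m : ℕ) (F : ℂ → ℂ) : Prop := Differentiable ℂ F ∧ MemLp F 2 (mu m)

/-- The Toeplitz operator with symbol `φ` applied to `F`. -/
noncomputable def toep (m : ℕ) (φ F : ℂ → ℂ) : ℂ → ℂ :=
  fun z => ∫ w, φ w * F w * kern m z w ∂(mu m)

/-- Finite sums of polynomials times Fock kernels. -/
def InA1 (f : ℂ → ℂ) : Prop :=
  ∃ (N : ℕ) (p : Fin N → Polynomial ℂ) (a : Fin N → ℂ),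
    ∀ z, f z = ∑ j, (p j).eval z * Complex.exp (conj (a j) * z)

end Pool.Agent.MP_620062_an.H46
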