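import Mathlib
import Pool.Agent.MP_620062_an.H46.Alg

/-! Gaussian integrals over the complex plane. -/

namespace Pool.Agent.MP_620062_an.H46

open Polynomial Complex MeasureTheory Real
open scoped ComplexConjugate

/-- Continuous functions of at most exponential growth. -/
def Gr (φ : ℂ → ℂ) : Prop :=
  Continuous φ ∧ ∃ C : ℝ, 0 ≤ C ∧ ∀ w, ‖φ w‖ ≤ C * Real.exp (C * ‖w‖)

theorem Gr.add {φ ψ : ℂ → ℂ} (h : Gr φ) (h' : Gr ψ) : Gr fun w => φ w + ψ w := by
  obtain ⟨c1, C, hC, b1⟩ := h
  obtain ⟨c2, D, hD, b2⟩ := h'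
  refine ⟨c1.add c2, C + D, by positivity, fun w => ?_⟩
  have e1 : Real.exp (C * ‖w‖) ≤ Real.exp ((C + D) * ‖w‖) :=
    Real.exp_le_exp.mpr (by nlinarith [norm_nonneg w])
  have e2 : Real.exp (D * ‖w‖) ≤ Real.exp ((C + D) * ‖w‖) :=
    Real.exp_le_exp.mpr (by nlinarith [norm_nonneg w])
  calc ‖φ w + ψ w‖ ≤ ‖φ w‖ + ‖ψ w‖ := norm_add_le _ _
    _ ≤ C * Real.exp ((C + D) * ‖w‖) + D * Real.exp ((C + D) * ‖w‖) :=
      add_le_add ((b1 w).trans (by gcongr)) ((b2 w).trans (by gcongr))
    _ = _ := by ring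

theorem Gr.mul {φ ψ : ℂ → ℂ} (h : Gr φ) (h' : Gr ψ) : Gr fun w => φ w * ψ w := by
  obtain ⟨c1, C, hC, b1⟩ := h
  obtain ⟨c2, D, hD, b2⟩ := h'
  refine ⟨c1.mul c2, C * D + C + D, by positivity, fun w => ?_⟩
  calc ‖φ w * ψ w‖ = ‖φ w‖ * ‖ψ w‖ := norm_mul _ _
    _ ≤ (C * Real.exp (C * ‖w‖)) * (D * Real.exp (D * ‖w‖)) := by
      gcongr
      · exact b1 w
      · exact b2 w
    _ = (C * D) * Real.exp ((C + D) * ‖w‖) := by rw [add_mul, Real.exp_add]; ring
    _ ≤ _ := by
      gcongr
      · nlinarith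
      · nlinarith [mul_nonneg hC hD]

theorem gr_const (c : ℂ) : Gr fun _ => c :=
  ⟨continuous_const, ‖c‖, norm_nonneg _, fun w =>
    le_mul_of_one_le_right (norm_nonneg _) (Real.one_le_exp (by positivity))⟩

theorem gr_lin {c : ℂ → ℂ} (hc : Continuous c) (hn : ∀ w, ‖c w‖ = ‖w‖) : Gr c :=
  ⟨hc, 1, zero_le_one, fun w => by
    rw [hn, one_mul, one_mul]; linarith [Real.add_one_le_exp ‖w‖]⟩

theorem gr_exp {c : ℂ → ℂ} (hc : Continuous c) (hn : ∀ w, ‖c w‖ = ‖w‖) (b : ℂ) :
    Gr fun w => cexp (b * c w) := by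
  refine ⟨by fun_prop, ‖b‖ + 1, by positivity, fun w => ?_⟩
  calc ‖cexp (b * c w)‖ ≤ Real.exp ‖b * c w‖ := Complex.norm_exp_le_exp_norm _
    _ ≤ Real.exp ((‖b‖ + 1) * ‖w‖) := by
      rw [norm_mul, hn]; gcongr; linarith
    _ ≤ _ := le_mul_of_one_le_left (Real.exp_pos _).le (by linarith [norm_nonneg b])

theorem Gr.pow {φ : ℂ → ℂ} (h : Gr φ) (j : ℕ) : Gr fun w => φ w ^ j := by
  induction j with
  | zero => simpa using gr_const 1
  | succ j ih => simpa [pow_succ] using ih.mul h

theorem gr_poly {c : ℂ → ℂ} (hc : Continuous c) (hn : ∀ w, ‖c w‖ = ‖w‖) (p : ℂ[X]) :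
    Gr fun w => p.eval (c w) := by
  induction p using Polynomial.induction_on' with
  | add p q hp hq => simpa using hp.add hq
  | monomial j a => simpa [eval_monomial] using (gr_const a).mul ((gr_lin hc hn).pow j)

theorem gr_ev {c : ℂ → ℂ} (hc : Continuous c) (hn : ∀ w, ‖c w‖ = ‖w‖) (Φ : EP) :
    Gr fun w => ev Φ (c w) := by
  induction Φ using AddMonoidAlgebra.induction_linear with
  | zero => simpa using gr_const 0
  | add Φ1 Φ2 h1 h2 => simpa [ev_add] using h1.add h2
  | single a p => simpa using (gr_poly hc hn p).mul (gr_exp hc hn a)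

theorem cid : Continuous (fun w : ℂ => w) := continuous_id
theorem nid : ∀ w : ℂ, ‖(fun w : ℂ => w) w‖ = ‖w‖ := fun _ => rfl
theorem cconj : Continuous (fun w : ℂ => conj w) := Complex.continuous_conj
theorem nconj : ∀ w : ℂ, ‖(fun w : ℂ => conj w) w‖ = ‖w‖ := fun w => Complex.norm_conj w

theorem integrable_gauss {c : ℝ} (hc : 0 < c) :
    Integrable (fun w : ℂ => Real.exp (-c * ‖w‖ ^ 2)) := by
  have := (GaussianFourier.integrable_cexp_neg_mul_sq_norm_add (V := ℂ) (b := (c : ℂ))
    (by simpa using hc) 0 0).norm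
  refine this.congr (Filter.Eventually.of_forall fun w => ?_)
  simp only [zero_mul, add_zero, Complex.norm_exp]
  congr 1
  rw [← Complex.ofReal_pow, ← Complex.ofReal_neg, ← Complex.ofReal_mul, Complex.ofReal_re]

theorem integrable_exp_gauss (C : ℝ) {c : ℝ} (hc : 0 < c) :
    Integrable (fun w : ℂ => Real.exp (C * ‖w‖) * Real.exp (-c * ‖w‖ ^ 2)) := by
  refine ((integrable_gauss (half_pos hc)).const_mul (Real.exp (C ^ 2 / (2 * c)))).mono'
    (by fun_prop) (Filter.Eventually.of_forall fun w => ?_)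
  rw [Real.norm_of_nonneg (by positivity), ← Real.exp_add, ← Real.exp_add]
  apply Real.exp_le_exp.mpr
  have : 0 ≤ (C - c * ‖w‖) ^ 2 / (2 * c) := by positivity
  have e : (C - c * ‖w‖) ^ 2 / (2 * c) = C ^ 2 / (2 * c) - C * ‖w‖ + c / 2 * ‖w‖ ^ 2 := by
    field_simp; ring
  linarith

theorem Gr.integrable {φ : ℂ → ℂ} (h : Gr φ) {c : ℝ} (hc : 0 < c) :
    Integrable (fun w : ℂ => φ w * (Real.exp (-c * ‖w‖ ^ 2) : ℝ)) := by
  obtain ⟨c1, C, hC, b1⟩ := h
  refine ((integrable_exp_gauss C hc).const_mul C).mono' (by fun_prop)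
    (Filter.Eventually.of_forall fun w => ?_)
  rw [norm_mul, Complex.norm_real, Real.norm_of_nonneg (Real.exp_pos _).le, ← mul_assoc]
  gcongr
  exact b1 w

/-- The Gaussian weight. -/
noncomputable def G (w : ℂ) : ℂ := (Real.exp (-1 * ‖w‖ ^ 2) : ℝ)

theorem Gr.intG {φ : ℂ → ℂ} (h : Gr φ) : Integrable (fun w : ℂ => φ w * G w) :=
  h.integrable one_pos

theorem hasDerivAt_gauss {φ c : ℂ → ℂ} (h : Gr φ) (hc : Continuous c) (hn : ∀ w, ‖c w‖ = ‖w‖)
    (b : ℂ) : HasDerivAt (fun b => ∫ w, φ w * cexp (b * c w) * G w)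
      (∫ w, φ w * c w * cexp (b * c w) * G w) b := by
  have hG : Continuous G := by unfold G; fun_prop
  obtain ⟨c1, C, hC, b1⟩ := h.mul (gr_lin hc hn)
  have hφ := h.1
  refine (hasDerivAt_integral_of_dominated_loc_of_deriv_le (μ := volume)
    (F := fun b w => φ w * cexp (b * c w) * G w)
    (F' := fun b w => φ w * c w * cexp (b * c w) * G w)
    (bound := fun w => C * (Real.exp ((C + (‖b‖ + 1)) * ‖w‖) * Real.exp (-1 * ‖w‖ ^ 2)))
    (Metric.ball_mem_nhds b one_pos) ?_ (h.mul (gr_exp hc hn b)).intG ?_ ?_ ?_ ?_).2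
  · exact Filter.Eventually.of_forall fun x => Continuous.aestronglyMeasurable (by fun_prop)
  · exact Continuous.aestronglyMeasurable (by fun_prop)
  · refine Filter.Eventually.of_forall fun w x hx => ?_
    have hx' : ‖x‖ ≤ ‖b‖ + 1 := by
      have := mem_ball_iff_norm.mp hx
      linarith [norm_sub_norm_le x b]
    have e1 : ‖cexp (x * c w)‖ ≤ Real.exp ((‖b‖ + 1) * ‖w‖) := by
      refine (Complex.norm_exp_le_exp_norm _).trans ?_
      rw [norm_mul, hn]; gcongr
    have e2 : ‖G w‖ = Real.exp (-1 * ‖w‖ ^ 2) := by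
      unfold G; rw [Complex.norm_real, Real.norm_of_nonneg (Real.exp_pos _).le]
    rw [norm_mul, norm_mul, e2, add_mul, Real.exp_add]
    calc _ ≤ (C * Real.exp (C * ‖w‖)) * Real.exp ((‖b‖ + 1) * ‖w‖) * Real.exp (-1 * ‖w‖ ^ 2) := by
          gcongr
          exact b1 w
      _ = _ := by ring
  · exact (integrable_exp_gauss _ one_pos).const_mul C
  · refine Filter.Eventually.of_forall fun w x _ => ?_
    have h2 : HasDerivAt (fun x => cexp (x * c w)) (cexp (x * c w) * c w) x := by
      simpa using ((hasDerivAt_id x).mul_const (c w)).cexp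
    refine ((h2.const_mul (φ w)).mul_const (G w)).congr_deriv ?_
    ring

theorem gauss_base (a b : ℂ) :
    ∫ w : ℂ, cexp (a * w) * cexp (b * conj w) * G w = π * cexp (a * b) := by
  rw [← (Complex.volume_preserving_equiv_real_prod.symm).integral_comp
    Complex.measurableEquivRealProd.symm.measurableEmbedding]
  have e : ∀ p : ℝ × ℝ, cexp (a * Complex.measurableEquivRealProd.symm p) *
      cexp (b * conj (Complex.measurableEquivRealProd.symm p)) *
        G (Complex.measurableEquivRealProd.symm p)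
      = cexp (-1 * (p.1 : ℂ) ^ 2 + (a + b) * p.1 + 0) *
        cexp (-1 * (p.2 : ℂ) ^ 2 + (I * (a - b)) * p.2 + 0) := by
    intro p
    have h1 : (Complex.measurableEquivRealProd.symm p : ℂ) = p.1 + p.2 * I := by
      apply Complex.ext <;> simp
    unfold G
    rw [h1, Complex.ofReal_exp, ← Complex.exp_add, ← Complex.exp_add, ← Complex.exp_add,
      Complex.sq_norm, Complex.normSq_add_mul_I]
    congr 1
    simp only [map_add, map_mul, Complex.conj_ofReal, Complex.conj_I]
    push_cast
    ring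
  simp_rw [e]
  rw [Measure.volume_eq_prod, integral_prod_mul
    (fun x : ℝ => cexp (-1 * (x : ℂ) ^ 2 + (a + b) * x + 0))
    (fun y : ℝ => cexp (-1 * (y : ℂ) ^ 2 + (I * (a - b)) * y + 0)),
    integral_cexp_quadratic (by simp), integral_cexp_quadratic (by simp)]
  have hpi : ((π : ℂ) / -(-1)) ^ (1 / 2 : ℂ) * ((π : ℂ) / -(-1)) ^ (1 / 2 : ℂ) = π := by
    rw [← Complex.cpow_add _ _ (by simp [Real.pi_ne_zero])]
    norm_num
  calc _ = (((π : ℂ) / -(-1)) ^ (1 / 2 : ℂ) * ((π : ℂ) / -(-1)) ^ (1 / 2 : ℂ)) *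
        (cexp (0 - (a + b) ^ 2 / (4 * -1)) * cexp (0 - (I * (a - b)) ^ 2 / (4 * -1))) := by ring
    _ = _ := by
      rw [hpi, ← Complex.exp_add]
      congr 2
      rw [mul_pow, Complex.I_sq]
      ring

theorem gauss_mono (b : ℂ) (i : ℕ) : ∀ a : ℂ,
    ∫ w : ℂ, (cexp (b * conj w) * w ^ i) * cexp (a * w) * G w = π * (b ^ i * cexp (a * b)) := by
  induction i with
  | zero =>
    intro a
    simp only [pow_zero, mul_one, one_mul]
    rw [← gauss_base a b]
    congr 1; ext w; ring
  | succ i ih =>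
    intro a
    have h1 := hasDerivAt_gauss (φ := fun w => cexp (b * conj w) * w ^ i)
      ((gr_exp cconj nconj b).mul ((gr_lin cid nid).pow i)) cid nid a
    have h2 : HasDerivAt (fun a : ℂ => (π : ℂ) * (b ^ i * cexp (a * b)))
        (π * (b ^ i * (cexp (a * b) * b))) a := by
      have : HasDerivAt (fun a : ℂ => cexp (a * b)) (cexp (a * b) * b) a := by
        simpa using ((hasDerivAt_id a).mul_const b).cexp
      exact (this.const_mul _).const_mul _
    rw [funext ih] at h1
    have := h1.unique h2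
    simp only [pow_succ, ← mul_assoc] at this ⊢
    rw [this]; ring

theorem gauss_poly (p : ℂ[X]) (a b : ℂ) :
    ∫ w : ℂ, (p.eval w * cexp (a * w)) * cexp (b * conj w) * G w
      = π * (p.eval b * cexp (a * b)) := by
  induction p using Polynomial.induction_on' with
  | add p q hp hq =>
    simp only [eval_add, add_mul]
    rw [integral_add (((gr_poly cid nid p).mul (gr_exp cid nid a)).mul (gr_exp cconj nconj b)).intG
      (((gr_poly cid nid q).mul (gr_exp cid nid a)).mul (gr_exp cconj nconj b)).intG, hp, hq]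
    ring
  | monomial j c =>
    have : ∀ w : ℂ, (monomial j c).eval w * cexp (a * w) * cexp (b * conj w) * G w
        = c * ((cexp (b * conj w) * w ^ j) * cexp (a * w) * G w) := by
      intro w; rw [eval_monomial]; ring
    simp_rw [this]
    rw [integral_const_mul, gauss_mono, eval_monomial]
    ring

theorem gauss_poly_pow (p : ℂ[X]) (a : ℂ) (j : ℕ) : ∀ b : ℂ,
    ∫ w : ℂ, (p.eval w * cexp (a * w) * conj w ^ j) * cexp (b * conj w) * G w
      = π * (((Dp a ^ j) p).eval b * cexp (a * b)) := by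
  induction j with
  | zero => intro b; simpa using gauss_poly p a b
  | succ j ih =>
    intro b
    have h1 := hasDerivAt_gauss (φ := fun w => p.eval w * cexp (a * w) * conj w ^ j)
      (((gr_poly cid nid p).mul (gr_exp cid nid a)).mul ((gr_lin cconj nconj).pow j))
      cconj nconj b
    rw [funext ih] at h1
    have h2 := (hasDerivAt_single a ((Dp a ^ j) p) b).const_mul (π : ℂ)
    have := h1.unique h2
    rw [pow_succ', Module.End.mul_apply, ← this]
    congr 1; ext w; ring

theorem gauss_poly_poly (p q : ℂ[X]) (a b : ℂ) :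
    ∫ w : ℂ, (p.eval w * cexp (a * w) * q.eval (conj w)) * cexp (b * conj w) * G w
      = π * ((aeval (Dp a) q p).eval b * cexp (a * b)) := by
  induction q using Polynomial.induction_on' with
  | add q r hq hr =>
    simp only [eval_add, mul_add, add_mul, map_add, LinearMap.add_apply]
    rw [integral_add
      ((((gr_poly cid nid p).mul (gr_exp cid nid a)).mul (gr_poly cconj nconj q)).mul
        (gr_exp cconj nconj b)).intG
      ((((gr_poly cid nid p).mul (gr_exp cid nid a)).mul (gr_poly cconj nconj r)).mul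
        (gr_exp cconj nconj b)).intG, hq, hr]
  | monomial j c =>
    have : ∀ w : ℂ, p.eval w * cexp (a * w) * (monomial j c).eval (conj w)
        * cexp (b * conj w) * G w
        = c * ((p.eval w * cexp (a * w) * conj w ^ j) * cexp (b * conj w) * G w) := by
      intro w; rw [eval_monomial]; ring
    simp_rw [this]
    rw [integral_const_mul, gauss_poly_pow, aeval_monomial, ← Algebra.smul_def,
      LinearMap.smul_apply, eval_smul, smul_eq_mul]
    ring

theorem gauss_conj (k Φ : EP) (z : ℂ) :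
    ∫ w : ℂ, (ev k (conj w) * ev Φ w) * cexp (z * conj w) * G w
      = π * ev (fw (LL k) Φ) z := by
  induction Φ using AddMonoidAlgebra.induction_linear with
  | zero => simp [fw_zero]
  | add Φ1 Φ2 h1 h2 =>
    simp only [ev_add, mul_add, add_mul, fw_add]
    rw [integral_add
      (((gr_ev cconj nconj k).mul (gr_ev cid nid Φ1)).mul (gr_exp cconj nconj z)).intG
      (((gr_ev cconj nconj k).mul (gr_ev cid nid Φ2)).mul (gr_exp cconj nconj z)).intG, h1, h2]
  | single a p =>
    rw [fw_single]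
    induction k using AddMonoidAlgebra.induction_linear with
    | zero => simp [LL_zero]
    | add k1 k2 h1 h2 =>
      simp only [ev_add, add_mul, LL_add, LinearMap.add_apply, AddMonoidAlgebra.single_add,
        mul_add]
      rw [integral_add
        (((gr_ev cconj nconj k1).mul (gr_ev cid nid _)).mul (gr_exp cconj nconj z)).intG
        (((gr_ev cconj nconj k2).mul (gr_ev cid nid _)).mul (gr_exp cconj nconj z)).intG, h1, h2]
    | single b q =>
      have : ∀ w : ℂ, ev (AddMonoidAlgebra.single b q) (conj w) *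
          ev (AddMonoidAlgebra.single a p) w * cexp (z * conj w) * G w
          = (p.eval w * cexp (a * w) * q.eval (conj w)) * cexp ((z + b) * conj w) * G w := by
        intro w
        rw [ev_single, ev_single, add_mul, Complex.exp_add]
        ring
      simp_rw [this]
      rw [gauss_poly_poly, LL_single, ev_single, LinearMap.smul_apply, LinearMap.comp_apply,
        eval_smul, taylor_eval, mul_add, Complex.exp_add, smul_eq_mul, mul_comm b a]
      ring

theorem gauss_hol (Φ : EP) (z : ℂ) :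
    ∫ w : ℂ, ev Φ w * cexp (z * conj w) * G w = π * ev Φ z := by
  induction Φ using AddMonoidAlgebra.induction_linear with
  | zero => simp
  | add Φ1 Φ2 h1 h2 =>
    simp only [ev_add, mul_add, add_mul]
    rw [integral_add ((gr_ev cid nid Φ1).mul (gr_exp cconj nconj z)).intG
      ((gr_ev cid nid Φ2).mul (gr_exp cconj nconj z)).intG, h1, h2]
  | single a p =>
    simp only [ev_single]
    exact gauss_poly p a z

end Pool.Agent.MP_620062_an.H46
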