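import Mathlib
import Pool.Agent.MP_620062_an.H46.Defs
import Pool.Agent.MP_620062_an.H46.Gauss

/-! Toeplitz operators on the Fock-Sobolev space: formulas, bounds and the main theorem. -/

namespace Pool.Agent.MP_620062_an.H46

open Polynomial Complex MeasureTheory Real
open scoped ComplexConjugate

/-- The kernel as a function of one variable. -/
noncomputable def kap (m : ℕ) (t : ℂ) : ℂ :=
  ∑' k : ℕ, ((m.factorial : ℂ) / ((k + m).factorial : ℂ)) * t ^ k

theorem kern_eq (m : ℕ) (z w : ℂ) : kern m z w = kap m (z * conj w) := rfl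

theorem term_le (m k : ℕ) (t : ℂ) {r : ℝ} (h : ‖t‖ ≤ r) :
    ‖((m.factorial : ℂ) / ((k + m).factorial : ℂ)) * t ^ k‖
      ≤ m.factorial * (r ^ k / k.factorial) := by
  rw [norm_mul, norm_div, Complex.norm_natCast, Complex.norm_natCast, norm_pow, div_mul_eq_mul_div,
    mul_div_assoc]
  have h1 : (k.factorial : ℝ) ≤ (k + m).factorial := by
    exact_mod_cast Nat.factorial_le (Nat.le_add_right k m)
  have h2 : (0 : ℝ) < k.factorial := by exact_mod_cast k.factorial_pos
  have h3 : 0 ≤ r := (norm_nonneg t).trans h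
  gcongr

theorem hasSum_rexp (r : ℝ) : HasSum (fun k : ℕ => r ^ k / k.factorial) (Real.exp r) := by
  rw [Real.exp_eq_exp_ℝ]
  exact NormedSpace.expSeries_div_hasSum_exp r

theorem kap_summable (m : ℕ) (t : ℂ) :
    Summable fun k : ℕ => ((m.factorial : ℂ) / ((k + m).factorial : ℂ)) * t ^ k :=
  Summable.of_norm_bounded ((hasSum_rexp ‖t‖).summable.mul_left _) fun k => term_le m k t le_rfl

theorem norm_kap_le (m : ℕ) (t : ℂ) : ‖kap m t‖ ≤ m.factorial * Real.exp ‖t‖ :=
  tsum_of_norm_bounded ((hasSum_rexp ‖t‖).mul_left _) fun k => term_le m k t le_rfl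

theorem differentiable_kap (m : ℕ) : Differentiable ℂ (kap m) := by
  intro t
  have := Complex.differentiableOn_tsum_of_summable_norm
    (F := fun (k : ℕ) (s : ℂ) => ((m.factorial : ℂ) / ((k + m).factorial : ℂ)) * s ^ k)
    (U := Metric.ball 0 (‖t‖ + 1)) ((hasSum_rexp (‖t‖ + 1)).summable.mul_left (m.factorial : ℝ))
    (fun k => by fun_prop) Metric.isOpen_ball
    (fun k w hw => term_le m k w (le_of_lt (by simpa using hw)))
  exact this.differentiableAt (Metric.isOpen_ball.mem_nhds (by simp))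

theorem pow_mul_kap (m : ℕ) (t : ℂ) :
    t ^ m * kap m t
      = m.factorial * (cexp t - ∑ k ∈ Finset.range m, t ^ k / k.factorial) := by
  have h1 : HasSum (fun k : ℕ => t ^ k / (k.factorial : ℂ)) (cexp t) := by
    rw [Complex.exp_eq_exp_ℂ]
    exact NormedSpace.expSeries_div_hasSum_exp t
  have h2 := ((hasSum_nat_add_iff' m).mpr h1).mul_left (m.factorial : ℂ)
  have h3 := (kap_summable m t).hasSum.mul_left (t ^ m)
  refine h3.unique ?_
  convert h2 using 2 with k
  rw [pow_add]; ring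

theorem continuous_kap (m : ℕ) : Continuous (kap m) := (differentiable_kap m).continuous

theorem gr_kap (m : ℕ) {c : ℂ → ℂ} (hc : Continuous c) (hn : ∀ w, ‖c w‖ = ‖w‖) (z : ℂ) :
    Gr fun w => kap m (z * c w) := by
  have := continuous_kap m
  refine ⟨by fun_prop, m.factorial + ‖z‖, by positivity, fun w => ?_⟩
  refine (norm_kap_le m _).trans ?_
  rw [norm_mul, hn]
  gcongr
  · linarith [norm_nonneg z]
  · linarith [show (0 : ℝ) ≤ m.factorial by positivity]

/-- The density of the measure. -/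
noncomputable def rho (m : ℕ) (z : ℂ) : ℝ :=
  ‖z‖ ^ (2 * m) * Real.exp (-‖z‖ ^ 2) / (Real.pi * (m.factorial : ℝ))

theorem rho_nonneg (m : ℕ) (z : ℂ) : 0 ≤ rho m z := by unfold rho; positivity

theorem rho_meas (m : ℕ) : Measurable fun z => ENNReal.ofReal (rho m z) := by
  unfold rho; fun_prop

theorem mu_eq (m : ℕ) : mu m = volume.withDensity (fun z => ENNReal.ofReal (rho m z)) := rfl

instance (m : ℕ) : SFinite (mu m) := by unfold mu; infer_instance

theorem integral_mu (m : ℕ) (X : ℂ → ℂ) : ∫ w, X w ∂(mu m) = ∫ w, (rho m w : ℂ) * X w := by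
  rw [mu_eq, integral_withDensity_eq_integral_toReal_smul (rho_meas m) (by simp)]
  congr 1
  ext w
  rw [ENNReal.toReal_ofReal (rho_nonneg m w), Complex.real_smul]

theorem rho_eq (m : ℕ) (w : ℂ) :
    (rho m w : ℂ) = w ^ m * conj w ^ m * G w / (Real.pi * (m.factorial : ℂ)) := by
  unfold rho G
  rw [← mul_pow, Complex.mul_conj, Complex.normSq_eq_norm_sq, pow_mul]
  push_cast
  simp

theorem Gr.int_mu {φ : ℂ → ℂ} (h : Gr φ) (m : ℕ) {c : ℝ} (hc : c < 1) :
    Integrable (fun w : ℂ => ‖φ w‖ * Real.exp (c * ‖w‖ ^ 2)) (mu m) := by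
  rw [mu_eq, integrable_withDensity_iff_integrable_smul' (rho_meas m) (by simp)]
  have := (((h.mul ((gr_lin cid nid).pow (2 * m))).integrable (sub_pos.mpr hc)).norm).div_const
    (Real.pi * (m.factorial : ℝ))
  refine this.congr (Filter.Eventually.of_forall fun w => ?_)
  simp only
  rw [ENNReal.toReal_ofReal (rho_nonneg m w), smul_eq_mul, norm_mul, norm_mul, norm_pow,
    Complex.norm_real, Real.norm_of_nonneg (Real.exp_pos _).le]
  unfold rho
  rw [show -(1 - c) * ‖w‖ ^ 2 = -‖w‖ ^ 2 + c * ‖w‖ ^ 2 by ring, Real.exp_add]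
  ring

theorem toep_formula (m : ℕ) (h g Φ : EP) (ψ : ℂ → ℂ) (hψ : ∀ z, z ^ m * ψ z = ev Φ z) :
    ∃ π1 : ℂ[X], ∀ z, z ^ m * toep m (fun w => ev h w + ev g (conj w)) ψ z
      = ev (h * Φ + fw (LL g) Φ - AddMonoidAlgebra.single 0 π1) z := by
  have hV : Gr fun w => (ev h w + ev g (conj w)) * ev Φ w :=
    ((gr_ev cid nid h).add (gr_ev cconj nconj g)).mul (gr_ev cid nid Φ)
  set V : ℂ → ℂ := fun w => (ev h w + ev g (conj w)) * ev Φ w with hVdef
  refine ⟨∑ k ∈ Finset.range m,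
    monomial k ((∫ w, V w * conj w ^ k * G w) / (Real.pi * k.factorial)), fun z => ?_⟩
  have hpi : (Real.pi : ℂ) ≠ 0 := by exact_mod_cast Real.pi_ne_zero
  have hm : (m.factorial : ℂ) ≠ 0 := by exact_mod_cast m.factorial_ne_zero
  unfold toep
  rw [integral_mu, ← integral_const_mul]
  have e : ∀ w : ℂ, z ^ m * ((rho m w : ℂ) * ((ev h w + ev g (conj w)) * ψ w * kern m z w))
      = (1 / Real.pi) * (V w * cexp (z * conj w) * G w
        - ∑ k ∈ Finset.range m, (z ^ k / k.factorial) * (V w * conj w ^ k * G w)) := by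
    intro w
    have h1 := pow_mul_kap m (z * conj w)
    rw [rho_eq, kern_eq, hVdef]
    simp only
    rw [← hψ w]
    have h2 : ∑ k ∈ Finset.range m, (z ^ k / k.factorial) *
        ((ev h w + ev g (conj w)) * (w ^ m * ψ w) * conj w ^ k * G w)
        = (ev h w + ev g (conj w)) * (w ^ m * ψ w) * G w *
          ∑ k ∈ Finset.range m, (z * conj w) ^ k / k.factorial := by
      rw [Finset.mul_sum]
      refine Finset.sum_congr rfl fun k _ => ?_
      rw [mul_pow]; ring
    rw [h2]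
    rw [mul_pow] at h1
    field_simp
    linear_combination (ev h w + ev g (conj w)) * w ^ m * ψ w * G w * h1
  simp_rw [e]
  have hk : ∀ k : ℕ, Integrable fun w => (z ^ k / k.factorial) * (V w * conj w ^ k * G w) :=
    fun k => (hV.mul ((gr_lin cconj nconj).pow k)).intG.const_mul _
  rw [integral_const_mul, integral_sub (hV.mul (gr_exp cconj nconj z)).intG
    (integrable_finsetSum _ fun k _ => hk k), integral_finsetSum _ fun k _ => hk k]
  have e2 : ∫ w, V w * cexp (z * conj w) * G w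
      = Real.pi * ev (h * Φ) z + Real.pi * ev (fw (LL g) Φ) z := by
    rw [← gauss_hol, ← gauss_conj, ← integral_add
      ((gr_ev cid nid (h * Φ)).mul (gr_exp cconj nconj z)).intG
      (((gr_ev cconj nconj g).mul (gr_ev cid nid Φ)).mul (gr_exp cconj nconj z)).intG]
    congr 1
    ext w
    rw [hVdef, ev_mul]
    ring
  rw [e2, ev_sub, ev_add, ev_single, eval_finsetSum]
  simp only [integral_const_mul, eval_monomial, zero_mul, Complex.exp_zero, mul_one]
  rw [mul_sub, Finset.mul_sum]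
  congr 1
  · field_simp
  · refine Finset.sum_congr rfl fun k _ => ?_
    have : (k.factorial : ℂ) ≠ 0 := by exact_mod_cast k.factorial_ne_zero
    field_simp

theorem norm_kern_le (m : ℕ) (z w : ℂ) :
    ‖kern m z w‖ ≤ m.factorial * (Real.exp (3 / 4 * ‖z‖ ^ 2) * Real.exp (1 / 3 * ‖w‖ ^ 2)) := by
  refine (norm_kap_le m _).trans ?_
  rw [← Real.exp_add, norm_mul, Complex.norm_conj]
  gcongr
  nlinarith [sq_nonneg (3 * ‖z‖ - 2 * ‖w‖)]

theorem toep_bound1 (m : ℕ) {v : ℂ → ℂ} (hv : Gr v) :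
    ∃ A : ℝ, 0 ≤ A ∧ ∀ F : ℂ → ℂ, Continuous F → MemLp F 2 (mu m) → ∀ δ : ℝ, 0 < δ → ∀ z,
      Integrable (fun w => v w * F w * kern m z w) (mu m) ∧
      ‖toep m v F z‖ ≤ (δ * A + (∫ w, ‖F w‖ ^ 2 ∂(mu m)) / δ) * Real.exp (3 / 4 * ‖z‖ ^ 2) := by
  have hA := ((hv.mul (gr_const (m.factorial : ℂ))).pow 2).int_mu m (c := 2 / 3) (by norm_num)
  refine ⟨∫ w, ‖(v w * m.factorial) ^ 2‖ * Real.exp (2 / 3 * ‖w‖ ^ 2) ∂(mu m),
    integral_nonneg fun w => by positivity, ?_⟩
  intro F hF hL δ hδ z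
  have hF2 := (memLp_two_iff_integrable_sq_norm hF.aestronglyMeasurable).mp hL
  have hb : Integrable (fun w => (δ * (‖(v w * m.factorial) ^ 2‖ * Real.exp (2 / 3 * ‖w‖ ^ 2))
      + ‖F w‖ ^ 2 / δ) * Real.exp (3 / 4 * ‖z‖ ^ 2)) (mu m) :=
    ((hA.const_mul δ).add (hF2.div_const δ)).mul_const _
  have hle : ∀ w, ‖v w * F w * kern m z w‖ ≤
      (δ * (‖(v w * m.factorial) ^ 2‖ * Real.exp (2 / 3 * ‖w‖ ^ 2))
      + ‖F w‖ ^ 2 / δ) * Real.exp (3 / 4 * ‖z‖ ^ 2) := by
    intro w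
    rw [norm_mul, norm_mul, norm_pow, norm_mul, Complex.norm_natCast,
      show 2 / 3 * ‖w‖ ^ 2 = 1 / 3 * ‖w‖ ^ 2 + 1 / 3 * ‖w‖ ^ 2 by ring, Real.exp_add]
    set x := ‖v w‖ * m.factorial * Real.exp (1 / 3 * ‖w‖ ^ 2) with hx
    have hx0 : 0 ≤ x := by positivity
    have h1 : x * ‖F w‖ ≤ δ * x ^ 2 + ‖F w‖ ^ 2 / δ := by
      have : 0 ≤ (δ * x - ‖F w‖) ^ 2 / δ := by positivity
      have e : (δ * x - ‖F w‖) ^ 2 / δ = δ * x ^ 2 + ‖F w‖ ^ 2 / δ - 2 * (x * ‖F w‖) := by
        field_simp; ring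
      nlinarith [mul_nonneg hx0 (norm_nonneg (F w))]
    calc ‖v w‖ * ‖F w‖ * ‖kern m z w‖
        ≤ ‖v w‖ * ‖F w‖ * (m.factorial * (Real.exp (3 / 4 * ‖z‖ ^ 2)
            * Real.exp (1 / 3 * ‖w‖ ^ 2))) := by gcongr; exact norm_kern_le m z w
      _ = (x * ‖F w‖) * Real.exp (3 / 4 * ‖z‖ ^ 2) := by rw [hx]; ring
      _ ≤ (δ * x ^ 2 + ‖F w‖ ^ 2 / δ) * Real.exp (3 / 4 * ‖z‖ ^ 2) := by gcongr
      _ = _ := by rw [hx]; ring
  have hk := (gr_kap m cconj nconj z).1
  have hv1 := hv.1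
  refine ⟨hb.mono' (Continuous.aestronglyMeasurable (by simp only [kern_eq]; fun_prop))
    (Filter.Eventually.of_forall hle), ?_⟩
  refine (norm_integral_le_of_norm_le hb (Filter.Eventually.of_forall hle)).trans (le_of_eq ?_)
  rw [integral_mul_const, integral_add (hA.const_mul δ) (hF2.div_const δ), integral_const_mul,
    integral_div]

theorem toep_meas (m : ℕ) {v F : ℂ → ℂ} (hv : Continuous v) (hF : Continuous F) :
    StronglyMeasurable (toep m v F) := by
  have hk := continuous_kap m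
  have : Continuous fun p : ℂ × ℂ => v p.2 * F p.2 * kern m p.1 p.2 := by
    simp only [kern_eq]; fun_prop
  exact this.stronglyMeasurable.integral_prod_right'

theorem toep_bound2 (m : ℕ) {u : ℂ → ℂ} (hu : Gr u) (z : ℂ) :
    ∃ B : ℝ, 0 ≤ B ∧ ∀ H : ℂ → ℂ, StronglyMeasurable H → ∀ M : ℝ,
      (∀ w, ‖H w‖ ≤ M * Real.exp (3 / 4 * ‖w‖ ^ 2)) →
      Integrable (fun w => u w * H w * kern m z w) (mu m) ∧ ‖toep m u H z‖ ≤ M * B := by
  have hg := hu.mul (gr_kap m cconj nconj z)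
  have hB := hg.int_mu m (c := 3 / 4) (by norm_num)
  refine ⟨∫ w, ‖u w * kap m (z * conj w)‖ * Real.exp (3 / 4 * ‖w‖ ^ 2) ∂(mu m),
    integral_nonneg fun w => by positivity, ?_⟩
  intro H hH M hM
  have hle : ∀ w, ‖u w * H w * kern m z w‖ ≤
      M * (‖u w * kap m (z * conj w)‖ * Real.exp (3 / 4 * ‖w‖ ^ 2)) := by
    intro w
    rw [kern_eq, mul_right_comm, norm_mul]
    calc _ ≤ ‖u w * kap m (z * conj w)‖ * (M * Real.exp (3 / 4 * ‖w‖ ^ 2)) := by
          gcongr; exact hM w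
      _ = _ := by ring
  refine ⟨(hB.const_mul M).mono' ?_ (Filter.Eventually.of_forall hle), ?_⟩
  · exact (hu.1.aestronglyMeasurable.mul hH.aestronglyMeasurable).mul
      (gr_kap m cconj nconj z).1.aestronglyMeasurable
  · refine (norm_integral_le_of_norm_le (hB.const_mul M)
      (Filter.Eventually.of_forall hle)).trans (le_of_eq ?_)
    rw [integral_const_mul]

theorem extend_zero (m : ℕ) {u v : ℂ → ℂ} (hu : Gr u) (hv : Gr v) (D : Set (ℂ → ℂ))
    (hD : ∀ F ∈ D, InF m F)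
    (hdense : ∀ H, InF m H → ∀ ε : ℝ, 0 < ε → ∃ F ∈ D, ∫ w, ‖H w - F w‖ ^ 2 ∂(mu m) < ε)
    (h0 : ∀ F ∈ D, toep m u (toep m v F) = 0) (H : ℂ → ℂ) (hH : InF m H) (z : ℂ) :
    toep m u (toep m v H) z = 0 := by
  obtain ⟨A, hA, b1⟩ := toep_bound1 m hv
  obtain ⟨B, hB, b2⟩ := toep_bound2 m hu z
  rw [← norm_le_zero_iff]
  refine le_of_forall_pos_le_add fun η hη => ?_
  set δ : ℝ := η / ((A + 1) * (B + 1)) with hδ
  have hδ0 : 0 < δ := by positivity
  obtain ⟨F, hFD, hF⟩ := hdense H hH (δ ^ 2) (by positivity)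
  have hF' := hD F hFD
  have cH := hH.1.continuous
  have cF := hF'.1.continuous
  have cHF : Continuous fun w => H w - F w := cH.sub cF
  have e1 : ∀ w, toep m v H w = toep m v (fun x => H x - F x) w + toep m v F w := by
    intro w
    unfold toep
    rw [← integral_add (b1 _ cHF (hH.2.sub hF'.2) 1 one_pos w).1 (b1 _ cF hF'.2 1 one_pos w).1]
    congr 1; ext x; ring
  have c1 := b2 _ (toep_meas m hv.1 cHF) _ fun w => (b1 _ cHF (hH.2.sub hF'.2) δ hδ0 w).2
  have c2 := b2 _ (toep_meas m hv.1 cF) _ fun w => (b1 _ cF hF'.2 1 one_pos w).2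
  have e2 : toep m u (toep m v H) z
      = toep m u (toep m v fun x => H x - F x) z + toep m u (toep m v F) z := by
    conv_lhs => unfold toep
    conv_rhs => rw [toep, toep]
    rw [← integral_add c1.1 c2.1]
    congr 1; ext x
    have := e1 x
    unfold toep at this
    rw [this]
    unfold toep
    ring
  rw [e2, h0 F hFD, Pi.zero_apply, add_zero, zero_add]
  refine c1.2.trans ?_
  have h3 : (∫ w, ‖H w - F w‖ ^ 2 ∂(mu m)) / δ ≤ δ := by
    rw [div_le_iff₀ hδ0]; nlinarith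
  calc _ ≤ (δ * A + δ) * (B + 1) := by gcongr; linarith
    _ = η := by rw [hδ]; field_simp

theorem inF_kap (m : ℕ) (lam : ℂ) : InF m fun z => kap m (lam * z) := by
  have hg := gr_kap m cid nid lam
  refine ⟨(differentiable_kap m).comp (by fun_prop), ?_⟩
  rw [memLp_two_iff_integrable_sq_norm hg.1.aestronglyMeasurable]
  simpa using (hg.pow 2).int_mu m (c := 0) one_pos

theorem toep_smul (m : ℕ) (v F : ℂ → ℂ) (c : ℂ) :
    toep m v (fun w => c * F w) = fun z => c * toep m v F z := by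
  ext z
  unfold toep
  rw [← integral_const_mul]
  congr 1; ext w; ring

theorem InA1.exists_ev {f : ℂ → ℂ} (hf : InA1 f) :
    (∃ Φ : EP, ∀ z, f z = ev Φ z) ∧ ∃ Φ : EP, ∀ z, conj (f z) = ev Φ (conj z) := by
  obtain ⟨N, p, a, h⟩ := hf
  have hs : ∀ (s : Finset (Fin N)) (Φ : Fin N → EP) (z : ℂ),
      ev (∑ j ∈ s, Φ j) z = ∑ j ∈ s, ev (Φ j) z := by
    intro s Φ z
    classical
    induction s using Finset.induction_on with
    | empty => simp
    | insert j s hj ih => rw [Finset.sum_insert hj, Finset.sum_insert hj, ev_add, ih]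
  refine ⟨⟨∑ j, AddMonoidAlgebra.single (conj (a j)) (p j), fun z => ?_⟩,
    ⟨∑ j, AddMonoidAlgebra.single (a j) ((p j).map (starRingEnd ℂ)), fun z => ?_⟩⟩
  · rw [h, hs]; simp
  · rw [h, hs, map_sum]
    refine Finset.sum_congr rfl fun j _ => ?_
    rw [ev_single, map_mul, ← Complex.exp_conj, map_mul, Complex.conj_conj, eval_map,
      eval₂_at_apply]

theorem gr_symbol {f k : ℂ → ℂ} (hf : InA1 f) (hk : InA1 k) : Gr fun w => f w + conj (k w) := by
  obtain ⟨f', hf'⟩ := hf.exists_ev.1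
  obtain ⟨k', hk'⟩ := hk.exists_ev.2
  have eu : (fun w => f w + conj (k w)) = fun w => ev f' w + ev k' (conj w) := by
    ext w; rw [hf', hk']
  rw [eu]
  exact (gr_ev cid nid f').add (gr_ev cconj nconj k')

theorem conv (m : ℕ) {u v : ℂ → ℂ} (hu : Gr u) (hv : Gr v) (F : ℂ → ℂ) (hF : InF m F) (z : ℂ) :
    Integrable (fun w => v w * F w * kern m z w) (mu m) ∧
      Integrable (fun w => u w * toep m v F w * kern m z w) (mu m) := by
  obtain ⟨A, -, b1⟩ := toep_bound1 m hv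
  obtain ⟨B, -, b2⟩ := toep_bound2 m hu z
  have cF := hF.1.continuous
  exact ⟨(b1 _ cF hF.2 1 one_pos z).1,
    (b2 _ (toep_meas m hv.1 cF) _ fun w => (b1 _ cF hF.2 1 one_pos w).2).1⟩

theorem main (m : ℕ) (f g h k : ℂ → ℂ) (hf : InA1 f) (hg : InA1 g) (hh : InA1 h)
    (hk : InA1 k) (D : Set (ℂ → ℂ)) (hD : ∀ F ∈ D, InF m F)
    (hdense : ∀ H, InF m H → ∀ ε : ℝ, 0 < ε → ∃ F ∈ D, ∫ w, ‖H w - F w‖ ^ 2 ∂(mu m) < ε)
    (h0 : ∀ F ∈ D, toep m (fun w => f w + conj (k w))
      (toep m (fun w => h w + conj (g w)) F) = 0) :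
    (fun w => f w + conj (k w)) = 0 ∨ (fun w => h w + conj (g w)) = 0 := by
  obtain ⟨f', hf'⟩ := hf.exists_ev.1
  obtain ⟨h', hh'⟩ := hh.exists_ev.1
  obtain ⟨k', hk'⟩ := hk.exists_ev.2
  obtain ⟨g', hg'⟩ := hg.exists_ev.2
  have eu : (fun w => f w + conj (k w)) = fun w => ev f' w + ev k' (conj w) := by
    ext w; rw [hf', hk']
  have ev' : (fun w => h w + conj (g w)) = fun w => ev h' w + ev g' (conj w) := by
    ext w; rw [hh', hg']
  rw [eu, ev'] at h0 ⊢
  have gu : Gr fun w => ev f' w + ev k' (conj w) :=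
    (gr_ev cid nid f').add (gr_ev cconj nconj k')
  have gv : Gr fun w => ev h' w + ev g' (conj w) :=
    (gr_ev cid nid h').add (gr_ev cconj nconj g')
  have key := extend_zero m gu gv D hD hdense h0
  have hm : (m.factorial : ℂ) ≠ 0 := by exact_mod_cast m.factorial_ne_zero
  rcases final_alg f' h' k' g' (fun lam _ => by
    set π0 : ℂ[X] := ∑ j ∈ Finset.range m, monomial j (lam ^ j / j.factorial) with hπ0
    set Φ0 : EP := AddMonoidAlgebra.single lam 1 - AddMonoidAlgebra.single 0 π0 with hΦ0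
    have hψ : ∀ z, z ^ m * (lam ^ m / m.factorial * kap m (lam * z)) = ev Φ0 z := by
      intro z
      have h1 := pow_mul_kap m (lam * z)
      rw [hΦ0, ev_sub, ev_single, ev_single, hπ0, eval_finsetSum]
      simp only [eval_monomial, eval_one, one_mul, zero_mul, Complex.exp_zero, mul_one]
      have : ∑ j ∈ Finset.range m, lam ^ j / j.factorial * z ^ j
          = ∑ j ∈ Finset.range m, (lam * z) ^ j / j.factorial :=
        Finset.sum_congr rfl fun j _ => by rw [mul_pow]; ring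
      rw [this]
      rw [mul_pow] at h1
      field_simp
      linear_combination h1
    obtain ⟨π1, h1⟩ := toep_formula m h' g' Φ0 _ hψ
    obtain ⟨π2, h2⟩ := toep_formula m f' k' _ _ h1
    refine ⟨π0, π1, π2, Φ0, _, rfl, rfl, ev_injective fun z => ?_⟩
    rw [← h2, toep_smul, toep_smul]
    simp only
    rw [key _ (inF_kap m lam) z]
    simp) with H | H
  · left; ext w; exact H w (conj w)
  · right; ext w; exact H w (conj w)

end Pool.Agent.MP_620062_an.H46
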